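import Mathlib
import Pool.Agent.IDLA.Defs
import Pool.Agent.IDLA.Final

/-!
# Internal DLA fills a finite transitive graph in time asymptotic to its size

The proof: for distinct vertices `w`, `z` of a finite connected vertex-transitive graph the
function `h v = P_v(hit w before z)` has average exactly `1/2`. As long as `w` is not occupied,
each new particle increases the mean of the sum of `h` over the occupied set by
`#V / (2 (#V - 1))`, whereas this sum is at most `#V / 2`. An exponential supermartingale shows
that the probability that `w` is not occupied after `(1 + ε) #V` particles is exponentially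
small in `#V`, and a union bound over `w` finishes the proof. The definitions are in
`Pool.Agent.IDLA.Defs`.
-/

namespace Pool.Agent.Results.MP_28b958_pr.FillingTime

open MeasureTheory Filter Topology Pool.Agent.IDLA

universe u v

/-- **The filling time of internal DLA with uniform driving on finite transitive graphs.**
For all `ε, δ > 0` there is an `N` such that for every finite connected vertex-transitive graph
`G` with `#V ≥ N` vertices and every sink `z`: the walks driving internal DLA exist, and for all
such walks (on any probability space) `P(|T_full / #V - 1| > ε) ≤ δ` (the event includes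
`T_full = ∞`). -/
theorem result (ε δ : ℝ) (hε : 0 < ε) (hδ : 0 < δ) :
    ∃ N : ℕ, ∀ (V : Type u) [Fintype V] [DecidableEq V] (G : SimpleGraph V) (z : V),
      G.Connected → VertexTransitive G → N ≤ Fintype.card V →
      (∃ (Ω : Type u) (_ : MeasurableSpace Ω) (μ : Measure Ω) (X : ℕ → ℕ → Ω → V),
        IsProbabilityMeasure μ ∧ IsDriving G z μ X) ∧
      ∀ (Ω : Type v) [MeasurableSpace Ω] (μ : Measure Ω) [IsProbabilityMeasure μ]
        (X : ℕ → ℕ → Ω → V), IsDriving G z μ X →
        μ.real {ω | fillTime z (fun t k => X t k ω) = ⊤ ∨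
          ε < |((fillTime z (fun t k => X t k ω)).toNat : ℝ) / Fintype.card V - 1|} ≤ δ := by
  -- the bound tends to zero
  have hc : 0 < ε ^ 2 / (8 + 4 * ε) := by positivity
  have hlim : Tendsto (fun n : ℕ => (n : ℝ) *
      Real.exp (1 / 2 - ε ^ 2 / (8 + 4 * ε) * n)) atTop (𝓝 0) := by
    have h1 : Tendsto (fun x : ℝ => x ^ 1 * Real.exp (-x)) atTop (𝓝 0) :=
      Real.tendsto_pow_mul_exp_neg_atTop_nhds_zero 1
    have h2 : Tendsto (fun n : ℕ => ε ^ 2 / (8 + 4 * ε) * (n : ℝ)) atTop atTop :=
      tendsto_natCast_atTop_atTop.const_mul_atTop hc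
    have h3 := (h1.comp h2).const_mul (Real.exp (1 / 2) / (ε ^ 2 / (8 + 4 * ε)))
    rw [mul_zero] at h3
    refine h3.congr (fun n => ?_)
    simp only [Function.comp, pow_one]
    rw [sub_eq_add_neg, Real.exp_add]
    field_simp
  have hev : ∀ᶠ n : ℕ in atTop, (n : ℝ) *
      Real.exp (1 / 2 - ε ^ 2 / (8 + 4 * ε) * n) ≤ δ := (hlim.eventually (ge_mem_nhds hδ))
  obtain ⟨N₁, hN₁⟩ := eventually_atTop.1 hev
  obtain ⟨N₂, hN₂⟩ := exists_nat_ge (1 / ε)
  refine ⟨max (max N₁ N₂) 2, ?_⟩
  intro V _ _ G z hG htr hN
  have hV : 2 ≤ Fintype.card V := le_trans (le_max_right _ _) hN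
  have h1 : N₁ ≤ Fintype.card V := le_trans (le_trans (le_max_left _ _) (le_max_left _ _)) hN
  have h2 : N₂ ≤ Fintype.card V := le_trans (le_trans (le_max_right _ _) (le_max_left _ _)) hN
  refine ⟨?_, ?_⟩
  · obtain ⟨Ω, m, μ, hμ, X, hX⟩ := exists_driving G hG hV z
    exact ⟨Ω, m, μ, X, hμ, hX⟩
  · intro Ω _ μ _ X hX
    have hVε : 1 ≤ ε * Fintype.card V := by
      have h3 : (N₂ : ℝ) ≤ Fintype.card V := by exact_mod_cast h2
      have h4 : 1 / ε ≤ Fintype.card V := le_trans hN₂ h3
      rw [div_le_iff₀ hε] at h4
      linarith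
    exact le_trans (hX.fill_bound hG htr hV ε hε hVε) (hN₁ _ h1)

end Pool.Agent.Results.MP_28b958_pr.FillingTime
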